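import Pool.Agent.Helper66.HK.Stmts

/-!
Zooms of sticky systems are sticky systems (module ZH).
-/

namespace Pool.Agent.Helper66.HK

open Finset Pool.Agent.Helper69.RK

noncomputable section

theorem zh_mono (h2 : ST_E2) {Ω α α' γ : Type} [Fintype Ω] (μ : Ω → ℝ) (hμ : ∀ ω, 0 ≤ μ ω)
    (f : Ω → α) (f' : Ω → α') (g : Ω → γ)
    (hd : ∀ ω ω', f' ω = f' ω' → g ω = g ω' → f ω = f ω') :
    CH μ f g ≤ CH μ f' g := by
  refine h2.1 Ω α α' γ μ f f' g hμ ?_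
  intro ω ω' _ _ he
  exact hd ω ω' (congrArg Prod.fst he) (congrArg Prod.snd he)

theorem zh_cond (h2 : ST_E2) {Ω α γ γ' : Type} [Fintype Ω] (μ : Ω → ℝ) (hμ : ∀ ω, 0 ≤ μ ω)
    (f : Ω → α) (g : Ω → γ) (g' : Ω → γ') (hd : ∀ ω ω', g' ω = g' ω' → g ω = g ω') :
    CH μ f g' ≤ CH μ f g :=
  h2.2.1 Ω α γ γ' μ f g g' hμ fun ω ω' _ _ he => hd ω ω' he

theorem zh_chain (h1 : ST_E1) (h2 : ST_E2) {Ω α α' γ : Type} [Fintype Ω] (μ : Ω → ℝ)
    (hμ : ∀ ω, 0 ≤ μ ω) (f : Ω → α) (f' : Ω → α') (g : Ω → γ)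
    (hd : ∀ ω ω', f' ω = f' ω' → f ω = f ω') :
    CH μ f' g = CH μ f g + CH μ f' (fun ω => (f ω, g ω)) := by
  have h := (h1 Ω _ _ _ μ f f' g hμ).2.1
  have e1 : CH μ f' g ≤ CH μ (fun ω => (f ω, f' ω)) g :=
    zh_mono h2 μ hμ _ _ g fun ω ω' he _ => congrArg Prod.snd he
  have e2 : CH μ (fun ω => (f ω, f' ω)) g ≤ CH μ f' g :=
    zh_mono h2 μ hμ _ _ g fun ω ω' he _ => Prod.ext (hd ω ω' he) he
  linarith

theorem zh_MI_fun (h1 : ST_E1) (h2 : ST_E2) {Ω α α' β γ : Type} [Fintype Ω] (μ : Ω → ℝ)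
    (hμ : ∀ ω, 0 ≤ μ ω) (f : Ω → α) (f' : Ω → α') (h : Ω → β) (g : Ω → γ)
    (hd : ∀ ω ω', f' ω = f' ω' → f ω = f ω') : MI μ f h g ≤ MI μ f' h g := by
  unfold MI
  have e1 := zh_chain h1 h2 μ hμ f f' g hd
  have e2 := zh_chain h1 h2 μ hμ f f' (fun ω => (h ω, g ω)) hd
  have e3 : CH μ f' (fun ω => (f ω, (h ω, g ω))) ≤ CH μ f' (fun ω => (f ω, g ω)) := by
    refine zh_cond h2 μ hμ f' _ _ ?_
    intro ω ω' he
    have e4 : f ω = f ω' := congrArg Prod.fst he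
    have e5 : g ω = g ω' := congrArg (fun q => q.2.2) he
    exact Prod.ext e4 e5
  linarith

theorem zh_MI_cond (h1 : ST_E1) (h2 : ST_E2) {Ω α α' β γ : Type} [Fintype Ω] (μ : Ω → ℝ)
    (hμ : ∀ ω, 0 ≤ μ ω) (y : Ω → α) (f : Ω → α') (h : Ω → β) (g : Ω → γ)
    (hd : ∀ ω ω', f ω = f ω' → y ω = y ω') : MI μ f h (fun ω => (y ω, g ω)) ≤ MI μ f h g := by
  unfold MI
  have e1 := zh_chain h1 h2 μ hμ y f g hd
  have e2 := zh_chain h1 h2 μ hμ y f (fun ω => (h ω, g ω)) hd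
  have e3 : CH μ f (fun ω => (y ω, (h ω, g ω))) ≤ CH μ f (fun ω => (h ω, (y ω, g ω))) := by
    refine zh_cond h2 μ hμ f _ _ ?_
    intro ω ω' he
    have e4 : y ω = y ω' := congrArg Prod.fst he
    have e5 : h ω = h ω' := congrArg (fun q => q.2.1) he
    have e6 : g ω = g ω' := congrArg (fun q => q.2.2) he
    exact Prod.ext e5 (Prod.ext e4 e6)
  have e4 := (h1 Ω _ _ _ μ y h g hμ).2.2
  linarith

theorem zh_floor (l k : ℕ) (y : ℝ) :
    2 ^ k * ⌊(2 : ℝ) ^ l * y⌋ ≤ ⌊(2 : ℝ) ^ (l + k) * y⌋ ∧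
      ⌊(2 : ℝ) ^ (l + k) * y⌋ < 2 ^ k * ⌊(2 : ℝ) ^ l * y⌋ + 2 ^ k := by
  have h1 : (⌊(2 : ℝ) ^ l * y⌋ : ℝ) ≤ 2 ^ l * y := Int.floor_le _
  have h2 : (2 : ℝ) ^ l * y < ⌊(2 : ℝ) ^ l * y⌋ + 1 := Int.lt_floor_add_one _
  have hk : (0 : ℝ) < 2 ^ k := by positivity
  have h3 : (2 : ℝ) ^ (l + k) * y = 2 ^ k * (2 ^ l * y) := by rw [pow_add]; ring
  constructor
  · rw [Int.le_floor, h3]
    push_cast
    exact mul_le_mul_of_nonneg_left h1 hk.le
  · rw [Int.floor_lt, h3]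
    push_cast
    have h4 := mul_lt_mul_of_pos_left h2 hk
    rw [mul_add, mul_one] at h4
    exact h4

theorem zh_floor_eq (l k : ℕ) (y y' : ℝ) (h : ⌊(2 : ℝ) ^ (l + k) * y⌋ = ⌊(2 : ℝ) ^ (l + k) * y'⌋) :
    ⌊(2 : ℝ) ^ l * y⌋ = ⌊(2 : ℝ) ^ l * y'⌋ := by
  obtain ⟨a1, a2⟩ := zh_floor l k y
  obtain ⟨b1, b2⟩ := zh_floor l k y'
  rw [h] at a1 a2
  have hk : (0 : ℤ) < 2 ^ k := by positivity
  have h1 : 2 ^ k * ⌊(2 : ℝ) ^ l * y⌋ < 2 ^ k * (⌊(2 : ℝ) ^ l * y'⌋ + 1) := by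
    rw [mul_add, mul_one]
    linarith
  have h2 : 2 ^ k * ⌊(2 : ℝ) ^ l * y'⌋ < 2 ^ k * (⌊(2 : ℝ) ^ l * y⌋ + 1) := by
    rw [mul_add, mul_one]
    linarith
  have h3 := lt_of_mul_lt_mul_left h1 hk.le
  have h4 := lt_of_mul_lt_mul_left h2 hk.le
  omega

theorem zh_cel_le {m : ℕ} {l n : ℕ} (hln : l ≤ n) (y y' : Fin m → ℝ) (h : cel n y = cel n y') :
    cel l y = cel l y' := by
  obtain ⟨k, rfl⟩ := Nat.exists_eq_add_of_le hln
  funext i
  exact zh_floor_eq l k (y i) (y' i) (congrFun h i)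

theorem zh_cel_fr {m : ℕ} (l k : ℕ) (y : Fin m → ℝ) (i : Fin m) :
    cel k (fr l y) i = cel (l + k) y i - 2 ^ k * cel l y i := by
  simp only [cel, fr]
  have h : (2 : ℝ) ^ k * Int.fract ((2 : ℝ) ^ l * y i) =
      2 ^ (l + k) * y i - ((2 ^ k * ⌊(2 : ℝ) ^ l * y i⌋ : ℤ) : ℝ) := by
    rw [Int.fract]
    push_cast
    rw [pow_add]
    ring
  rw [h, Int.floor_sub_intCast]

theorem zh_cel_fr_eq {m : ℕ} (l k : ℕ) (y y' : Fin m → ℝ) (h0 : cel l y = cel l y') :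
    cel k (fr l y) = cel k (fr l y') ↔ cel (l + k) y = cel (l + k) y' := by
  constructor
  · intro h
    funext i
    have h1 := congrFun h i
    rw [zh_cel_fr, zh_cel_fr, h0] at h1
    linarith
  · intro h
    funext i
    rw [zh_cel_fr, zh_cel_fr, h0, h]

theorem zh_fr_inj {m : ℕ} (l : ℕ) (y y' : Fin m → ℝ) (h0 : cel l y = cel l y')
    (h1 : fr l y = fr l y') : y = y' := by
  funext i
  have h2 : (2 : ℝ) ^ l * y i = ⌊(2 : ℝ) ^ l * y i⌋ + Int.fract ((2 : ℝ) ^ l * y i) :=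
    (Int.floor_add_fract _).symm
  have h3 : (2 : ℝ) ^ l * y' i = ⌊(2 : ℝ) ^ l * y' i⌋ + Int.fract ((2 : ℝ) ^ l * y' i) :=
    (Int.floor_add_fract _).symm
  have h4 : ⌊(2 : ℝ) ^ l * y i⌋ = ⌊(2 : ℝ) ^ l * y' i⌋ := congrFun h0 i
  have h5 : Int.fract ((2 : ℝ) ^ l * y i) = Int.fract ((2 : ℝ) ^ l * y' i) := congrFun h1 i
  rw [← h4, ← h5, ← h2] at h3
  exact (mul_left_cancel₀ (by positivity) h3).symm

theorem zh_hn (h1 : ST_E1) (h2 : ST_E2) (h3 : ST_E3) {Ω γ : Type} [Fintype Ω] (μ : Ω → ℝ)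
    (hμ : ∀ ω, 0 ≤ μ ω) (hm : mass μ = 1) (t : Ω → ℝ) (G : Ω → γ) (w n : ℕ) (hw : w ≤ n) :
    CH μ (fun ω => hn n (t ω)) G ≤ CH μ (fun ω => hn w (t ω)) G + ((n : ℝ) - w) := by
  obtain ⟨d, rfl⟩ := Nat.exists_eq_add_of_le hw
  have e1 := zh_chain h1 h2 μ hμ (fun ω => hn w (t ω)) (fun ω => hn (w + d) (t ω)) G
    (fun ω ω' he => zh_floor_eq w d (t ω) (t ω') he)
  have e2 : CH μ (fun ω => hn (w + d) (t ω)) (fun ω => (hn w (t ω), G ω)) ≤
      CH μ (fun ω => (fun _ : Fin 1 => hn (w + d) (t ω))) (fun ω => (hn w (t ω), G ω)) := by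
    refine zh_mono h2 μ hμ _ _ _ ?_
    intro ω ω' he _
    exact congrFun he 0
  have e3 := h3.2 Ω _ 1 μ (fun ω => (fun _ : Fin 1 => hn (w + d) (t ω)))
    (fun ω => (hn w (t ω), G ω)) ((2 : ℝ) ^ d - 1) hμ
    (by have := one_le_pow₀ (n := d) (by norm_num : (1 : ℝ) ≤ 2); linarith) ?_
  · rw [sub_add_cancel, hm] at e3
    have e4 : Real.logb 2 ((2 : ℝ) ^ d) = d := by
      rw [← Real.rpow_natCast, Real.logb_rpow (by norm_num) (by norm_num)]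
    rw [e4] at e3
    push_cast at e3 ⊢
    linarith
  · intro ω ω' _ _ he i
    have h4 : hn w (t ω) = hn w (t ω') := congrArg Prod.fst he
    obtain ⟨a1, a2⟩ := zh_floor w d (t ω)
    obtain ⟨b1, b2⟩ := zh_floor w d (t ω')
    simp only [hn] at h4 ⊢
    rw [h4] at a1 a2
    have h5 : ⌊(2 : ℝ) ^ (w + d) * t ω⌋ - ⌊(2 : ℝ) ^ (w + d) * t ω'⌋ ≤ 2 ^ d - 1 := by omega
    have h6 : ⌊(2 : ℝ) ^ (w + d) * t ω'⌋ - ⌊(2 : ℝ) ^ (w + d) * t ω⌋ ≤ 2 ^ d - 1 := by omega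
    have h5' : (⌊(2 : ℝ) ^ (w + d) * t ω⌋ : ℝ) - ⌊(2 : ℝ) ^ (w + d) * t ω'⌋ ≤ 2 ^ d - 1 := by
      exact_mod_cast h5
    have h6' : (⌊(2 : ℝ) ^ (w + d) * t ω'⌋ : ℝ) - ⌊(2 : ℝ) ^ (w + d) * t ω⌋ ≤ 2 ^ d - 1 := by
      exact_mod_cast h6
    rw [abs_le]
    constructor <;> linarith

theorem st_ZH (h1 : ST_E1) (h2 : ST_E2) (h3 : ST_E3) : ST_ZH := by
  intro m n l w η Ω ζ _ μ Z a x t hs hlw hw
  have hw0 : (0 : ℝ) < w := by exact_mod_cast hw
  have hηw : η * n / w * w = η * n := by field_simp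
  have hμ := hs.nn
  refine ⟨hs.nn, hs.ms, fun ω i => ⟨Int.fract_nonneg _, Int.fract_lt_one _⟩,
    fun ω i => ⟨Int.fract_nonneg _, Int.fract_lt_one _⟩, hs.tb, ?_, ?_, ?_⟩
  · intro k hk
    rw [hηw]
    have s1 := hs.st (l + k) (by omega)
    have s2 := zh_MI_fun h1 h2 μ hμ (fun ω => cel (l + w) (x ω)) (fun ω => cel n (x ω))
      (fun ω => cel (l + k) (a ω)) (fun ω => (cel (l + k) (x ω), Z ω))
      (fun ω ω' he => zh_cel_le hlw _ _ he)
    refine le_trans ?_ (s2.trans s1)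
    unfold MI
    -- first term
    have t1 : CH μ (fun ω => cel w (fr l (x ω)))
        (fun ω => (cel k (fr l (x ω)), (xi l (a ω) (x ω), Z ω))) ≤
        CH μ (fun ω => cel (l + w) (x ω))
        (fun ω => (cel k (fr l (x ω)), (xi l (a ω) (x ω), Z ω))) := by
      refine zh_mono h2 μ hμ _ _ _ ?_
      intro ω ω' he hg
      have hx : cel l (x ω) = cel l (x ω') := congrArg (fun q => q.2.1.2) hg
      exact (zh_cel_fr_eq l w _ _ hx).2 he
    have t2 : CH μ (fun ω => cel (l + w) (x ω))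
        (fun ω => (cel k (fr l (x ω)), (xi l (a ω) (x ω), Z ω))) ≤
        CH μ (fun ω => cel (l + w) (x ω)) (fun ω => (cel (l + k) (x ω), Z ω)) := by
      refine zh_cond h2 μ hμ _ _ _ ?_
      intro ω ω' hg
      have hx : cel l (x ω) = cel l (x ω') := congrArg (fun q => q.2.1.2) hg
      have hx2 : cel k (fr l (x ω)) = cel k (fr l (x ω')) := congrArg (fun q => q.1) hg
      exact Prod.ext ((zh_cel_fr_eq l k _ _ hx).1 hx2) (congrArg (fun q => q.2.2) hg)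
    -- second term
    have t3 : CH μ (fun ω => cel (l + w) (x ω))
        (fun ω => (cel k (fr l (a ω)), (cel k (fr l (x ω)), (xi l (a ω) (x ω), Z ω)))) ≤
        CH μ (fun ω => cel w (fr l (x ω)))
        (fun ω => (cel k (fr l (a ω)), (cel k (fr l (x ω)), (xi l (a ω) (x ω), Z ω)))) := by
      refine zh_mono h2 μ hμ _ _ _ ?_
      intro ω ω' he hg
      have hx : cel l (x ω) = cel l (x ω') := congrArg (fun q => q.2.2.1.2) hg
      exact (zh_cel_fr_eq l w _ _ hx).1 he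
    have t4 : CH μ (fun ω => cel (l + w) (x ω))
        (fun ω => (cel (l + k) (a ω), (cel (l + k) (x ω), Z ω))) ≤
        CH μ (fun ω => cel (l + w) (x ω))
        (fun ω => (cel k (fr l (a ω)), (cel k (fr l (x ω)), (xi l (a ω) (x ω), Z ω)))) := by
      refine zh_cond h2 μ hμ _ _ _ ?_
      intro ω ω' hg
      have ha : cel (l + k) (a ω) = cel (l + k) (a ω') := congrArg (fun q => q.1) hg
      have hx : cel (l + k) (x ω) = cel (l + k) (x ω') := congrArg (fun q => q.2.1) hg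
      have hZ : Z ω = Z ω' := congrArg (fun q => q.2.2) hg
      have ha0 := zh_cel_le (Nat.le_add_right l k) _ _ ha
      have hx0 := zh_cel_le (Nat.le_add_right l k) _ _ hx
      exact Prod.ext ((zh_cel_fr_eq l k _ _ ha0).2 ha) (Prod.ext ((zh_cel_fr_eq l k _ _ hx0).2 hx)
        (Prod.ext (Prod.ext ha0 hx0) hZ))
    linarith
  · have s1 := zh_hn h1 h2 h3 μ hμ hs.ms t (fun ω => ((a ω, x ω), Z ω)) w n (by omega)
    have s2 := hs.h1
    have s3 : CH μ (fun ω => hn w (t ω)) (fun ω => ((a ω, x ω), Z ω)) ≤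
        CH μ (fun ω => hn w (t ω))
          (fun ω => ((fr l (a ω), fr l (x ω)), (xi l (a ω) (x ω), Z ω))) := by
      refine zh_cond h2 μ hμ _ _ _ ?_
      intro ω ω' hg
      have ha : a ω = a ω' := congrArg (fun q => q.1.1) hg
      have hx : x ω = x ω' := congrArg (fun q => q.1.2) hg
      have hZ : Z ω = Z ω' := congrArg (fun q => q.2) hg
      simp only [ha, hx, hZ]
    have s4 : (1 - η * n / w) * w = w - η * n := by
      rw [sub_mul, one_mul, hηw]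
    rw [s4]
    have s5 : (1 - η) * (n : ℝ) = n - η * n := by ring
    rw [s5] at s2
    linarith
  · rw [hηw]
    have s1 := zh_MI_cond h1 h2 μ hμ (fun ω => xi l (a ω) (x ω)) (fun ω => (a ω, x ω)) t Z
      (fun ω ω' he => by
        have ha : a ω = a ω' := congrArg Prod.fst he
        have hx : x ω = x ω' := congrArg Prod.snd he
        simp only [ha, hx])
    refine le_trans ?_ (s1.trans hs.h2)
    unfold MI
    have t1 : CH μ (fun ω => (fr l (a ω), fr l (x ω))) (fun ω => (xi l (a ω) (x ω), Z ω)) ≤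
        CH μ (fun ω => (a ω, x ω)) (fun ω => (xi l (a ω) (x ω), Z ω)) := by
      refine zh_mono h2 μ hμ _ _ _ ?_
      intro ω ω' he _
      have ha : a ω = a ω' := congrArg Prod.fst he
      have hx : x ω = x ω' := congrArg Prod.snd he
      simp only [ha, hx]
    have t2 : CH μ (fun ω => (a ω, x ω)) (fun ω => (t ω, (xi l (a ω) (x ω), Z ω))) ≤
        CH μ (fun ω => (fr l (a ω), fr l (x ω))) (fun ω => (t ω, (xi l (a ω) (x ω), Z ω))) := by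
      refine zh_mono h2 μ hμ _ _ _ ?_
      intro ω ω' he hg
      have ha : cel l (a ω) = cel l (a ω') := congrArg (fun q => q.2.1.1) hg
      have hx : cel l (x ω) = cel l (x ω') := congrArg (fun q => q.2.1.2) hg
      exact Prod.ext (zh_fr_inj l _ _ ha (congrArg Prod.fst he))
        (zh_fr_inj l _ _ hx (congrArg Prod.snd he))
    linarith

end

end Pool.Agent.Helper66.HK
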